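import Pool.Agent.Work.MP_64ea0f_cs.InterfaceA

set_option autoImplicit false

/-! # Block PAR: standard parabolic subgroups -/

namespace Pool.CS

theorem PAR_In_add {D : Rd} {J : Set D.S} {v w : D.V} (hv : D.In J v) (hw : D.In J w) :
    D.In J (v + w) := by
  intro s hs
  rw [Pi.add_apply, hv s hs, hw s hs, add_zero]

theorem PAR_In_smul {D : Rd} {J : Set D.S} {v : D.V} (a : ℝ) (hv : D.In J v) :
    D.In J (a • v) := by
  intro s hs
  rw [Pi.smul_apply, hv s hs, smul_zero]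

theorem PAR_In_neg {D : Rd} {J : Set D.S} {v : D.V} (hv : D.In J v) : D.In J (-v) := by
  intro s hs
  rw [Pi.neg_apply, hv s hs, neg_zero]

theorem PAR_In_neg_iff {D : Rd} {J : Set D.S} {v : D.V} : D.In J (-v) ↔ D.In J v := by
  constructor
  · intro h
    have := PAR_In_neg h
    rwa [neg_neg] at this
  · exact PAR_In_neg

theorem PAR_In_sub {D : Rd} {J : Set D.S} {v w : D.V} (hv : D.In J v) (hw : D.In J w) :
    D.In J (v - w) := by
  rw [sub_eq_add_neg]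
  exact PAR_In_add hv (PAR_In_neg hw)

theorem PAR_In_e {D : Rd} {J : Set D.S} {s : D.S} (hs : s ∈ J) : D.In J (D.e s) := by
  intro t ht
  have hts : t ≠ s := by
    rintro rfl
    exact ht hs
  simp [Rd.e, hts]

theorem PAR_mem_of_In_e {D : Rd} {J : Set D.S} {s : D.S} (h : D.In J (D.e s)) : s ∈ J := by
  by_contra hs
  have := h s hs
  simp [Rd.e] at this

theorem PAR_sq (hB : Stmt_BAS) (D : Rd) (s : D.S) : D.σ s * D.σ s = 1 := by
  obtain ⟨-, -, -, -, -, -, he, -, -, -, h2, -, -, hre, -, -⟩ := hB D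
  have := h2 (D.e s) (he s)
  rwa [hre s] at this

theorem PAR_inv (hB : Stmt_BAS) (D : Rd) (s : D.S) : (D.σ s)⁻¹ = D.σ s :=
  inv_eq_of_mul_eq_one_left (PAR_sq hB D s)

theorem PAR_refl (hB : Stmt_BAS) (D : Rd) (s : D.S) (v : D.V) :
    D.ρ (D.σ s) v = v - (2 * D.B v (D.e s)) • D.e s := by
  obtain ⟨-, -, -, -, -, -, he, -, -, hr, -, -, -, hre, -, -⟩ := hB D
  have := hr (D.e s) (he s) v
  rwa [hre s] at this

theorem PAR_In_refl (hB : Stmt_BAS) {D : Rd} {J : Set D.S} {s : D.S} (hs : s ∈ J) {v : D.V}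
    (hv : D.In J v) : D.In J (D.ρ (D.σ s) v) := by
  rw [PAR_refl hB D s v]
  exact PAR_In_sub hv (PAR_In_smul _ (PAR_In_e hs))

theorem PAR_refl_refl (hB : Stmt_BAS) (D : Rd) (s : D.S) (v : D.V) :
    D.ρ (D.σ s) (D.ρ (D.σ s) v) = v := by
  have h : D.ρ (D.σ s * D.σ s) v = v := by
    rw [PAR_sq hB D s, map_one]
    rfl
  rwa [map_mul] at h

theorem PAR_refl_self (hB : Stmt_BAS) (D : Rd) (s : D.S) : D.ρ (D.σ s) (D.e s) = -D.e s := by
  obtain ⟨-, -, -, -, -, h1, he, -, -, -, -, -, -, -, -, -⟩ := hB D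
  rw [PAR_refl hB D s, h1 (D.e s) (he s), mul_one, two_smul]
  abel

/-- inversions of `w` and of `w σ_s` -/
theorem PAR_step (hB : Stmt_BAS) (hS : Stmt_SGN) (hL : Stmt_LEN) {D : Rd} {J : Set D.S} {w : D.W}
    (hw : ∀ φ ∈ D.N w, D.In J φ) {s : D.S} (hs : s ∈ J) : ∀ φ ∈ D.N (w * D.σ s), D.In J φ := by
  obtain ⟨-, -, h3, -, -, -, -⟩ := hL D
  obtain ⟨s1, -, -, -, -, -, -, -, -⟩ := hS D
  obtain ⟨-, -, -, -, -, -, he, hact, -, -, -, -, -, -, -, -⟩ := hB D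
  by_cases hp : D.ρ w (D.e s) ∈ D.Ps
  · rw [h3 w s hp]
    rintro φ (rfl | ⟨ψ, hψ, rfl⟩)
    · exact PAR_In_e hs
    · exact PAR_In_refl hB hs (hw ψ hψ)
  · have hp' : D.ρ (w * D.σ s) (D.e s) ∈ D.Ps := by
      have h1 : D.ρ (w * D.σ s) (D.e s) = -D.ρ w (D.e s) := by
        rw [map_mul, Module.End.mul_apply, PAR_refl_self hB D s, map_neg]
      rw [h1]
      exact (s1 _ (hact _ (he s) w)).resolve_left hp
    have h4 := h3 (w * D.σ s) s hp'
    rw [mul_assoc, PAR_sq hB D s, mul_one] at h4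
    intro φ hφ
    have h5 : D.ρ (D.σ s) φ ∈ D.N w := by
      rw [h4]
      exact Or.inr ⟨φ, hφ, rfl⟩
    have h6 := PAR_In_refl hB hs (hw _ h5)
    rwa [PAR_refl_refl hB] at h6

theorem PAR_one (hL : Stmt_LEN) (D : Rd) : D.N 1 = ∅ := by
  obtain ⟨h1, h2, -, -, -, -, -⟩ := hL D
  have h := (h2 1).2 rfl
  unfold Rd.len at h
  rwa [Set.ncard_eq_zero (h1 1)] at h

theorem PAR_fwd (hB : Stmt_BAS) (hS : Stmt_SGN) (hL : Stmt_LEN) {D : Rd} {J : Set D.S} {w : D.W}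
    (hw : w ∈ D.par J) : ∀ φ ∈ D.N w, D.In J φ := by
  unfold Rd.par at hw
  induction hw using Subgroup.closure_induction_right with
  | one =>
    intro φ hφ
    rw [PAR_one hL D] at hφ
    exact absurd hφ (Set.notMem_empty _)
  | mul_right x hx y hy ih =>
    obtain ⟨s, hs, rfl⟩ := hy
    exact PAR_step hB hS hL ih hs
  | mul_inv_cancel x hx y hy ih =>
    obtain ⟨s, hs, rfl⟩ := hy
    rw [PAR_inv hB D s]
    exact PAR_step hB hS hL ih hs

/-- induction along descents -/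
theorem PAR_ind (hB : Stmt_BAS) (hL : Stmt_LEN) {D : Rd} (P : D.W → Prop) (h1 : P 1)
    (hstep : ∀ w s, D.ρ w (D.e s) ∉ D.Ps → P (w * D.σ s) → P w) : ∀ w, P w := by
  obtain ⟨-, h2, -, -, h5, h6, -⟩ := hL D
  have key : ∀ n : ℕ, ∀ w, D.len w = n → P w := by
    intro n
    induction n with
    | zero =>
      intro w hw
      rw [(h2 w).1 hw]
      exact h1
    | succ n ih =>
      intro w hw
      have hne : w ≠ 1 := by
        intro h
        have := (h2 w).2 h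
        omega
      obtain ⟨s, hs⟩ := h6 w hne
      have := h5 w s hs
      exact hstep w s hs (ih _ (by omega))
  exact fun w => key _ w rfl

theorem PAR_desc (hB : Stmt_BAS) (hS : Stmt_SGN) {D : Rd} {w : D.W} {s : D.S}
    (h : D.ρ w (D.e s) ∉ D.Ps) : D.e s ∈ D.N w := by
  obtain ⟨-, -, -, s4, -, -, -, -, -⟩ := hS D
  exact ⟨s4 s, h⟩

theorem PAR_bwd (hB : Stmt_BAS) (hS : Stmt_SGN) (hL : Stmt_LEN) {D : Rd} {J : Set D.S} :
    ∀ w : D.W, (∀ φ ∈ D.N w, D.In J φ) → w ∈ D.par J := by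
  refine PAR_ind hB hL _ (fun _ => one_mem _) ?_
  intro w s hs ih hw
  have hsJ : s ∈ J := PAR_mem_of_In_e (hw _ (PAR_desc hB hS hs))
  have h1 := ih (PAR_step hB hS hL hw hsJ)
  have h2 : D.σ s ∈ D.par J := Subgroup.subset_closure ⟨s, hsJ, rfl⟩
  have h3 := (D.par J).mul_mem h1 h2
  rwa [mul_assoc, PAR_sq hB D s, mul_one] at h3

theorem PAR_iff (hB : Stmt_BAS) (hS : Stmt_SGN) (hL : Stmt_LEN) (D : Rd) (J : Set D.S) (w : D.W) :
    w ∈ D.par J ↔ ∀ φ ∈ D.N w, D.In J φ :=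
  ⟨PAR_fwd hB hS hL, PAR_bwd hB hS hL w⟩

/-- the reflection in a root supported in `J` is in `par J` -/
theorem PAR_rf_pos (hB : Stmt_BAS) (hS : Stmt_SGN) (hL : Stmt_LEN) {D : Rd} {J : Set D.S}
    {φ : D.V} (hφ : φ ∈ D.Rt) (hJ : D.In J φ) : D.rf φ ∈ D.par J := by
  obtain ⟨-, -, -, -, -, -, -, hact, -, hr, -, -, -, -, -, -⟩ := hB D
  obtain ⟨s1, -, -, -, -, -, -, -, -⟩ := hS D
  refine PAR_bwd hB hS hL _ ?_
  rintro ψ ⟨hψ, hneg⟩ t ht
  have h1 := (s1 _ (hact ψ hψ.1 (D.rf φ))).resolve_left hneg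
  have h2 := h1.2 t
  have h3 := hψ.2 t
  rw [hr φ hφ ψ, Pi.neg_apply, Pi.sub_apply, Pi.smul_apply, hJ t ht, smul_zero, sub_zero] at h2
  linarith

theorem PAR_N (hB : Stmt_BAS) (hS : Stmt_SGN) (hL : Stmt_LEN) {D : Rd} {J : Set D.S} :
    ∀ w : D.W, w ∈ D.par J → ∀ φ ∈ D.N w, ∃ v ∈ D.par J, ∃ s ∈ J, φ = D.ρ v (D.e s) := by
  obtain ⟨-, -, h3, -, -, -, -⟩ := hL D
  obtain ⟨s1, -, -, -, -, -, -, -, -⟩ := hS D
  obtain ⟨-, -, -, -, -, -, he, hact, -, -, -, -, -, -, -, -⟩ := hB D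
  refine PAR_ind hB hL _ ?_ ?_
  · intro _ φ hφ
    rw [PAR_one hL D] at hφ
    exact absurd hφ (Set.notMem_empty _)
  · intro w s hs ih hw φ hφ
    have hsJ : s ∈ J := PAR_mem_of_In_e (PAR_fwd hB hS hL hw _ (PAR_desc hB hS hs))
    have h2 : D.σ s ∈ D.par J := Subgroup.subset_closure ⟨s, hsJ, rfl⟩
    have hp' : D.ρ (w * D.σ s) (D.e s) ∈ D.Ps := by
      have h1 : D.ρ (w * D.σ s) (D.e s) = -D.ρ w (D.e s) := by
        rw [map_mul, Module.End.mul_apply, PAR_refl_self hB D s, map_neg]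
      rw [h1]
      exact (s1 _ (hact _ (he s) w)).resolve_left hs
    have h4 := h3 (w * D.σ s) s hp'
    rw [mul_assoc, PAR_sq hB D s, mul_one] at h4
    rw [h4] at hφ
    rcases hφ with rfl | ⟨ψ, hψ, rfl⟩
    · exact ⟨1, one_mem _, s, hsJ, by rw [map_one]; rfl⟩
    · obtain ⟨v, hv, r, hr, rfl⟩ := ih ((D.par J).mul_mem hw h2) ψ hψ
      refine ⟨D.σ s * v, (D.par J).mul_mem h2 hv, r, hr, ?_⟩
      rw [map_mul, Module.End.mul_apply]

theorem PAR_root (hB : Stmt_BAS) (hS : Stmt_SGN) (hL : Stmt_LEN) {D : Rd} {J : Set D.S}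
    {φ : D.V} (hφ : φ ∈ D.Rt) (hJ : D.In J φ) : ∃ w ∈ D.par J, ∃ s ∈ J, φ = D.ρ w (D.e s) := by
  have hB' := hB D
  obtain ⟨-, -, -, -, -, h1, he, hact, hneg, hr, -, -, -, -, -, -⟩ := hB D
  obtain ⟨s1, s2, -, -, -, -, -, -, -⟩ := hS D
  have pos : ∀ ψ ∈ D.Ps, D.In J ψ → ∃ w ∈ D.par J, ∃ s ∈ J, ψ = D.ρ w (D.e s) := by
    intro ψ hψ hJ'
    refine PAR_N hB hS hL (D.rf ψ) (PAR_rf_pos hB hS hL hψ.1 hJ') ψ ⟨hψ, ?_⟩
    have h2 : D.ρ (D.rf ψ) ψ = -ψ := by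
      rw [hr ψ hψ.1 ψ, h1 ψ hψ.1, mul_one, two_smul]
      abel
    rw [h2]
    exact s2 ψ hψ
  rcases s1 φ hφ with h | h
  · exact pos φ h hJ
  · obtain ⟨w, hw, s, hs, hws⟩ := pos (-φ) h (PAR_In_neg hJ)
    refine ⟨w * D.σ s, (D.par J).mul_mem hw (Subgroup.subset_closure ⟨s, hs, rfl⟩), s, hs, ?_⟩
    rw [map_mul, Module.End.mul_apply, PAR_refl_self hB D s, map_neg, ← hws, neg_neg]

theorem PAR_move (hB : Stmt_BAS) {D : Rd} {J : Set D.S} {w : D.W} (hw : w ∈ D.par J) :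
    ∀ v, D.In J (D.ρ w v - v) := by
  unfold Rd.par at hw
  induction hw using Subgroup.closure_induction with
  | mem x hx =>
    obtain ⟨s, hs, rfl⟩ := hx
    intro v
    rw [PAR_refl hB D s v]
    have h : v - (2 * D.B v (D.e s)) • D.e s - v = -((2 * D.B v (D.e s)) • D.e s) := by abel
    rw [h]
    exact PAR_In_neg (PAR_In_smul _ (PAR_In_e hs))
  | one =>
    intro v
    rw [map_one, Module.End.one_apply, sub_self]
    exact fun _ _ => rfl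
  | mul x y hx hy ihx ihy =>
    intro v
    have h : D.ρ (x * y) v - v = (D.ρ x (D.ρ y v) - D.ρ y v) + (D.ρ y v - v) := by
      rw [map_mul, Module.End.mul_apply]
      abel
    rw [h]
    exact PAR_In_add (ihx _) (ihy _)
  | inv x hx ih =>
    intro v
    have h : D.ρ x⁻¹ v - v = -(D.ρ x (D.ρ x⁻¹ v) - D.ρ x⁻¹ v) := by
      rw [← Module.End.mul_apply, ← map_mul, mul_inv_cancel, map_one, Module.End.one_apply]
      abel
    rw [h]
    exact PAR_In_neg (ih _)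

theorem par_thm (hB : Stmt_BAS) (hS : Stmt_SGN) (hL : Stmt_LEN) : Stmt_PAR := by
  intro D J
  refine ⟨fun w => PAR_iff hB hS hL D J w, fun φ hφ hJ => PAR_root hB hS hL hφ hJ,
    fun w hw v => PAR_move hB hw v, fun φ hφ hJ => PAR_rf_pos hB hS hL hφ hJ, ?_, ?_⟩
  · intro φ hφ hp
    obtain ⟨-, -, -, -, -, h1, -, -, -, hr, -, -, -, -, -, -⟩ := hB D
    have h := PAR_move hB hp φ
    rw [hr φ hφ φ, h1 φ hφ, mul_one] at h
    intro t ht
    have h2 := h t ht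
    rw [Pi.sub_apply, Pi.sub_apply, Pi.smul_apply, smul_eq_mul] at h2
    linarith
  · intro w hw φ hφ hJ
    by_contra hn
    exact hJ (PAR_fwd hB hS hL hw φ ⟨hφ, hn⟩)

end Pool.CS
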