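import Pool.Agent.Work.MP_64ea0f_cs.InterfaceF
import Pool.Agent.Work.MP_64ea0f_cs_helper53.LSX

set_option autoImplicit false

/-! # Block F3G: the grid -/

namespace Pool.CS

namespace F3G

variable {D : Rd} {H : Subgroup D.W}

theorem comm1 {Λ : Type} (G : SimpleGraph Λ) {s : Λ} {l : List Λ} (h : ∀ t ∈ l, G.Adj s t) :
    rg G s * wp G l = wp G l * rg G s := by
  induction l with
  | nil => rw [wp_nil, mul_one, one_mul]
  | cons t l ih =>
    have h1 := ih (fun t' ht' => h t' (List.mem_cons_of_mem _ ht'))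
    have h2 := rg_comm (h t List.mem_cons_self)
    rw [wp_cons, ← mul_assoc, h2, mul_assoc, h1, mul_assoc]

theorem comm2 {Λ : Type} (G : SimpleGraph Λ) {w l : List Λ} (h : ∀ s ∈ w, ∀ t ∈ l, G.Adj s t) :
    wp G w * wp G l = wp G l * wp G w := by
  induction w with
  | nil => rw [wp_nil, mul_one, one_mul]
  | cons s w ih =>
    have h1 := ih (fun s' hs' => h s' (List.mem_cons_of_mem _ hs'))
    have h2 := comm1 G (h s List.mem_cons_self)
    rw [wp_cons, mul_assoc, h1, ← mul_assoc, h2, mul_assoc]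

theorem r_act_wp (hLS : Stmt_LSX) (hD : D.Deep H) {L : LS (D.lg H) D.X} (hL : D.IsFlip H L)
    {h : D.W} (hh : h ∈ H) (l : List (D.Lb H)) : ∀ x y : D.X, y.1 = D.act h x.1 →
    (L.r y (wp (D.lg H) l)).1 = D.act h (L.r x (wp (D.lg H) l)).1 := by
  induction l with
  | nil =>
    intro x y hy
    rw [wp_nil, LS.r_one, LS.r_one]
    exact hy
  | cons a l ih =>
    intro x y hy
    rw [LS.r_wp_cons, LS.r_wp_cons]
    exact ih _ _ ((hLS D H hD).2 L hL h hh a x y hy)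

theorem r_act (hLS : Stmt_LSX) (hD : D.Deep H) {L : LS (D.lg H) D.X} (hL : D.IsFlip H L)
    {h : D.W} (hh : h ∈ H) (c : RC (D.lg H)) {x y : D.X} (hy : y.1 = D.act h x.1) :
    (L.r y c).1 = D.act h (L.r x c).1 := by
  obtain ⟨l, rfl⟩ := wp_surj (D.lg H) c
  exact r_act_wp hLS hD hL hh l x y hy

/-- `h (b · a) = (b · a) · wp w` if `c h = a * wp w * a⁻¹` -/
theorem base_move (h1 : Stmt_VX1) (hLS : Stmt_LSX) (hD : D.Deep H) {L : LS (D.lg H) D.X}
    (hL : D.IsFlip H L) {b : D.X} {κ : D.X → RC (D.lg H)} {c : H →* RC (D.lg H)}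
    (hdev : D.Dev H L b κ c) (g : H) (a : RC (D.lg H)) (l : List (D.Lb H))
    (hc : c g = a * wp (D.lg H) l * a⁻¹) :
    (L.r (L.r b a) (wp (D.lg H) l)).1 = D.act g.1 (L.r b a).1 := by
  obtain ⟨-, hact, -, -, -, -, -, -, -, -, -⟩ := h1 D
  set y : D.X := ⟨D.act g.1 b.1, hact b.1 b.2 g.1⟩ with hy
  have h2 : κ y = c g := by
    rw [hdev.hol g b y rfl, hdev.one, mul_one]
  have h3 : L.r b (c g) = y := by
    rw [← h2]
    exact hdev.path y
  have h4 := r_act hLS hD hL g.2 a (x := b) (y := y) rfl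
  rw [← h3, ← LS.r_mul, hc] at h4
  have h5 : a * wp (D.lg H) l * a⁻¹ * a = a * wp (D.lg H) l := by group
  rw [h5, LS.r_mul] at h4
  exact h4

theorem not_mem_fl {x : Set D.V} {φ α : D.V} (hα : α ∈ x) (h : α ∉ D.fl x φ) : α = φ := by
  by_contra hne
  exact h (Or.inr ⟨hα, hne⟩)

/-- a root which disappears along a path is flipped at some step -/
theorem split {L : LS (D.lg H) D.X} (hL : D.IsFlip H L) {α : D.V} (w : List (D.Lb H)) :
    ∀ x : D.X, α ∈ x.1 → α ∉ (L.r x (wp (D.lg H) w)).1 → ∃ (w1 : List (D.Lb H)) (s : D.Lb H)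
      (w2 : List (D.Lb H)), w = w1 ++ s :: w2 ∧ D.Mn (L.r x (wp (D.lg H) w1)).1 α ∧ α ∈ s.1 := by
  induction w with
  | nil =>
    intro x hx hn
    rw [wp_nil, LS.r_one] at hn
    exact absurd hx hn
  | cons s w ih =>
    intro x hx hn
    by_cases hmem : α ∈ (L.τ s x).1
    · rw [LS.r_wp_cons] at hn
      obtain ⟨w1, s', w2, hw, hM, hs⟩ := ih _ hmem hn
      refine ⟨s :: w1, s', w2, ?_, ?_, hs⟩
      · rw [hw]
        rfl
      · rw [LS.r_wp_cons]
        exact hM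
    · refine ⟨[], s, w, rfl, ?_⟩
      rw [wp_nil, LS.r_one]
      by_cases hex : ∃ φ, D.Mn x.1 φ ∧ φ ∈ s.1
      · obtain ⟨φ, hφ, hφs⟩ := hex
        rw [(hL s x).1 φ hφ hφs] at hmem
        have := not_mem_fl hx hmem
        rw [this]
        exact ⟨hφ, hφs⟩
      · push Not at hex
        rw [(hL s x).2 hex] at hmem
        exact absurd hx hmem

/-- a label adjacent to all letters of `l` moves `x · wp l` by the same root as `x` -/
theorem grid (hB : Stmt_BAS) (h3 : Stmt_VX3) (hD : D.Deep H) {L : LS (D.lg H) D.X}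
    (hL : D.IsFlip H L) {s : D.Lb H} {φ : D.V} (hs : φ ∈ s.1) (l : List (D.Lb H)) :
    (∀ t ∈ l, (D.lg H).Adj s t) → ∀ x : D.X, D.Mn x.1 φ → D.Mn (L.r x (wp (D.lg H) l)).1 φ := by
  induction l with
  | nil =>
    intro _ x hx
    rw [wp_nil, LS.r_one]
    exact hx
  | cons t l ih =>
    intro hadj x hx
    rw [LS.r_wp_cons]
    refine ih (fun t' ht' => hadj t' (List.mem_cons_of_mem _ ht')) _ ?_
    by_cases hex : ∃ ψ, D.Mn x.1 ψ ∧ ψ ∈ t.1
    · obtain ⟨ψ, hψ, hψt⟩ := hex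
      have hc := LSX.cross hB hD x.2 (hadj t List.mem_cons_self).symm hψ hψt hx hs
      rw [(hL t x).1 ψ hψ hψt]
      exact ((h3 D x.1 x.2 ψ φ).2.1 hψ hx hc).1
    · push Not at hex
      rw [(hL t x).2 hex]
      exact hx

end F3G

open F3G in
theorem f3g_thm : Stmt_BAS → Stmt_VX1 → Stmt_VX3 → Stmt_LSX → Stmt_F3G := by
  intro hB h1 h3 hLS D H hD L hL b κ c hdev h g a w l hch hcg hadj α hα hn
  rw [← base_move h1 hLS hD hL hdev h a w hch] at hn
  obtain ⟨w1, s, w2, hw, hM, hs⟩ := split hL w _ hα hn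
  have hmem : s ∈ w := by
    rw [hw]
    exact List.mem_append_right _ List.mem_cons_self
  have hM2 := grid hB h3 hD hL hs l (fun t ht => hadj s hmem t ht) _ hM
  have hcomm : wp (D.lg H) w1 * wp (D.lg H) l = wp (D.lg H) l * wp (D.lg H) w1 := by
    refine comm2 _ (fun s' hs' t ht => hadj s' ?_ t ht)
    rw [hw]
    exact List.mem_append_left _ hs'
  rw [← LS.r_mul, hcomm, LS.r_mul] at hM2
  rw [r_act_wp hLS hD hL g.2 w1 (L.r b a) _ (base_move h1 hLS hD hL hdev g a l hcg)] at hM2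
  obtain ⟨-, hact, -, -, -, -, hMn, -, -, -, -⟩ := h1 D
  set x' := L.r (L.r b a) (wp (D.lg H) w1) with hx'
  have hM3 := (hMn x'.1 x'.2 g.1 α).1 hM
  exact hD.self _ (hact x'.1 x'.2 g.1) α (D.ρ g.1 α) hM2 hM3 ⟨g.1, g.2, Or.inl rfl⟩

end Pool.CS
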