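import Pool.Agent.Work.MP_64ea0f_cs.InterfaceG3

set_option autoImplicit false

/-! # Block MSX: existence of multiple shifts -/

namespace Pool.CS

open Classical in
theorem msx_thm : Stmt_SHX → Stmt_ORD → Stmt_IVA → Stmt_MSX := by
  intro hS hO hI D K hK x hx N Δ ν
  suffices H : (∀ δ ∈ Δ, D.Af δ ∧ D.Cmp K δ ∧ D.Big x δ) →
      (∀ δ ∈ Δ, ∀ δ' ∈ Δ, δ ≠ δ' → D.B δ δ' = 0) → (∀ δ ∈ Δ, D.Shd K N δ (ν δ)) →
      ∃ y, D.MSh K N Δ ν x y ∧
        ∀ δ', D.Af δ' → (∀ δ ∈ Δ, D.B δ δ' = 0) → D.Big x δ' → D.Big y δ' by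
    intro h1 h2 h3
    obtain ⟨y, hy, -⟩ := H h1 h2 h3
    exact ⟨y, hy⟩
  induction Δ using Finset.induction_on with
  | empty =>
    intro _ _ _
    refine ⟨x, ⟨hx, hx, ?_, ?_, ?_, ?_, ?_⟩, fun _ _ _ h => h⟩
    · intro δ hδ
      exact absurd hδ (Finset.notMem_empty δ)
    · intro δ hδ
      exact absurd hδ (Finset.notMem_empty δ)
    · intro δ hδ
      exact absurd hδ (Finset.notMem_empty δ)
    · intro φ _ _
      exact Iff.rfl
    · intro δ hδ
      exact absurd hδ (Finset.notMem_empty δ)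
  | insert δ Δ hδΔ ih =>
    intro h1 h2 h3
    have m0 : δ ∈ insert δ Δ := Finset.mem_insert_self δ Δ
    have m1 : ∀ δ' ∈ Δ, δ' ∈ insert δ Δ := fun δ' h => Finset.mem_insert_of_mem h
    have hne : ∀ δ' ∈ Δ, δ' ≠ δ := by
      intro δ' h e
      rw [e] at h
      exact hδΔ h
    obtain ⟨y, hy, hbig⟩ := ih (fun δ' h => h1 δ' (m1 δ' h))
      (fun δ' h δ'' h' => h2 δ' (m1 δ' h) δ'' (m1 δ'' h')) (fun δ' h => h3 δ' (m1 δ' h))
    obtain ⟨haf, hcmp, hbx⟩ := h1 δ m0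
    have hby : D.Big y δ := hbig δ haf (fun δ' h => h2 δ' (m1 δ' h) δ m0 (hne δ' h)) hbx
    have hiv : D.Iv K δ (ν δ) := ((hI D K δ haf).2.1 N (ν δ) (h3 δ m0)).2
    obtain ⟨s1, s2, s3, -, -⟩ := hS D K hK δ haf hcmp y hy.vy hby (ν δ) hiv
    have hmem : ∀ φ, φ ∈ D.shs δ (ν δ) y ↔
        (φ ∈ y ∧ φ ∉ D.Fd δ) ∨ (φ ∈ D.Fd δ ∧ φ - ((ν δ φ : ℝ) * D.cst δ φ) • δ ∈ y) :=
      fun φ => Iff.rfl
    refine ⟨D.shs δ (ν δ) y, ⟨hx, s1, ?_, h2, h3, ?_, ?_⟩, ?_⟩
    · intro δ' hδ'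
      obtain ⟨a1, a2, a3⟩ := h1 δ' hδ'
      refine ⟨a1, a2, a3, ?_⟩
      rcases Finset.mem_insert.1 hδ' with e | h
      · rw [e]
        exact s2
      · exact s3 δ' a1 (h2 δ m0 δ' hδ' (hne δ' h).symm) (hy.af δ' h).2.2.2
    · intro φ hφ hout
      have h4 := hy.out φ hφ (fun δ' h => hout δ' (m1 δ' h))
      have h5 := hout δ m0
      rw [hmem, h4]
      constructor
      · intro h
        exact Or.inl ⟨h, h5⟩
      · rintro (h | h)
        · exact h.1
        · exact absurd h.1 h5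
    · intro δ' hδ' φ hφ
      rcases Finset.mem_insert.1 hδ' with e | h
      · subst e
        have h6 : φ - ((ν δ' φ : ℝ) * D.cst δ' φ) • δ' ∈ x ↔
            φ - ((ν δ' φ : ℝ) * D.cst δ' φ) • δ' ∈ y := by
          by_cases hr : φ - ((ν δ' φ : ℝ) * D.cst δ' φ) • δ' ∈ D.Rt
          · have hFd : φ - ((ν δ' φ : ℝ) * D.cst δ' φ) • δ' ∈ D.Fd δ' := by
              by_cases h0 : (ν δ' φ : ℝ) * D.cst δ' φ = 0
              · rw [h0, zero_smul, sub_zero]
                exact hφ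
              · refine ⟨hr, (ν δ' φ : ℝ) * D.cst δ' φ, h0, ?_⟩
                rw [sub_add_cancel]
                exact hφ.1
            refine hy.out _ hr fun δ'' h'' => ?_
            exact ((hO D δ' δ'' haf (h1 δ'' (m1 δ'' h'')).1).2
              (h2 δ' m0 δ'' (m1 δ'' h'') (hne δ'' h'').symm) (hne δ'' h'').symm _ hFd).1
          · constructor
            · intro h
              exact absurd (hx.1.sub h) hr
            · intro h
              exact absurd (hy.vy.1.sub h) hr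
        rw [hmem, h6]
        constructor
        · rintro (h | h)
          · exact absurd hφ h.2
          · exact h.2
        · intro h
          exact Or.inr ⟨hφ, h⟩
      · have h7 : φ ∉ D.Fd δ := ((hO D δ' δ (h1 δ' hδ').1 haf).2
          (h2 δ' hδ' δ m0 (hne δ' h)) (hne δ' h) φ hφ).1
        rw [hmem, ← hy.inn δ' h φ hφ]
        constructor
        · rintro (h' | h')
          · exact h'.1
          · exact absurd h'.1 h7
        · intro h'
          exact Or.inl ⟨h', h7⟩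
    · intro δ' a1 a2 a3
      exact s3 δ' a1 (a2 δ m0) (hbig δ' a1 (fun δ'' h => a2 δ'' (m1 δ'' h)) a3)

end Pool.CS
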