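import Pool.Agent.Work.MP_64ea0f_cs.InterfaceF

set_option autoImplicit false

/-! # Block TRN: translated roots -/

namespace Pool.CS

namespace TRN

variable {D : Rd}

theorem ρ_mul (w w' : D.W) (v : D.V) : D.ρ (w * w') v = D.ρ w (D.ρ w' v) := by
  rw [map_mul]
  rfl

theorem ρ_one (v : D.V) : D.ρ 1 v = v := by
  rw [map_one]
  rfl

theorem ρ_inj (w : D.W) {v v' : D.V} (h : D.ρ w v = D.ρ w v') : v = v' := by
  have h1 : D.ρ w⁻¹ (D.ρ w v) = D.ρ w⁻¹ (D.ρ w v') := by rw [h]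
  rw [← ρ_mul, ← ρ_mul, inv_mul_cancel, ρ_one, ρ_one] at h1
  exact h1

theorem ne_of_lt {h : D.W} {φ : D.V} (hne : ∀ n : ℕ, 0 < n → D.ρ (h ^ n) φ ≠ φ) {m n : ℕ}
    (hmn : m < n) : D.ρ (h ^ m) φ ≠ D.ρ (h ^ n) φ := by
  intro heq
  obtain ⟨k, rfl⟩ := Nat.exists_eq_add_of_lt hmn
  have h1 : h ^ (m + k + 1) = h ^ m * h ^ (k + 1) := by rw [← pow_add, add_assoc]
  rw [h1, ρ_mul] at heq
  exact hne (k + 1) (Nat.succ_pos k) (ρ_inj _ heq).symm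

theorem ne_all {h : D.W} {φ : D.V} (hne : ∀ n : ℕ, 0 < n → D.ρ (h ^ n) φ ≠ φ) {m n : ℕ}
    (hmn : m ≠ n) : D.ρ (h ^ m) φ ≠ D.ρ (h ^ n) φ := by
  rcases lt_or_gt_of_ne hmn with h1 | h1
  · exact ne_of_lt hne h1
  · exact (ne_of_lt hne h1).symm

/-- eventually positive at `w⁻¹` -/
theorem eventually (hL : Stmt_LEN) {f : ℕ → D.V} (hf : Function.Injective f) {u : D.W}
    (hu : ∀ n, D.On u (f n)) (w : D.W) : ∃ n0 : ℕ, ∀ n, n0 ≤ n → D.ρ w (f n) ∈ D.Ps := by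
  obtain ⟨-, -, -, -, -, -, hfin⟩ := hL D
  have h1 : {n | ¬ D.On w⁻¹ (f n)}.Finite := by
    refine Set.Finite.of_finite_image ((hfin u w⁻¹).subset ?_) hf.injOn
    rintro _ ⟨n, hn, rfl⟩
    exact ⟨hu n, hn⟩
  obtain ⟨N, hN⟩ := h1.bddAbove
  refine ⟨N + 1, fun n hn => ?_⟩
  by_contra hcon
  have h2 : n ∈ {n | ¬ D.On w⁻¹ (f n)} := by
    change ¬ D.ρ w⁻¹⁻¹ (f n) ∈ D.Ps
    rwa [inv_inv]
  have := hN h2
  omega

end TRN

open TRN in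
theorem trn_thm : Stmt_BAS → Stmt_SGN → Stmt_LEN → Stmt_NST → Stmt_PAR → Stmt_TRN := by
  intro hB hS hL hN hP D h φ hφ hT
  have hne : ∀ n : ℕ, 0 < n → D.ρ (h ^ n) φ ≠ φ := fun n hn => (hT n hn).2
  obtain ⟨-, -, -, -, -, -, -, hrt, hneg, -, -, -, -, -, -, -⟩ := hB D
  obtain ⟨-, -, -, -, -, -, -, -, hon⟩ := hS D
  have hinv : ∀ n : ℕ, D.ρ (h ^ n) (D.ρ (h⁻¹ ^ n) φ) = φ := by
    intro n
    rw [← ρ_mul, inv_pow, mul_inv_cancel, ρ_one]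
  have hinv' : ∀ n : ℕ, D.ρ (h⁻¹ ^ n) (D.ρ (h ^ n) φ) = φ := by
    intro n
    rw [← ρ_mul, inv_pow, inv_mul_cancel, ρ_one]
  have hne' : ∀ n : ℕ, 0 < n → D.ρ (h⁻¹ ^ n) φ ≠ φ := by
    intro n hn heq
    have := hinv n
    rw [heq] at this
    exact hne n hn this
  have p2 : ∀ w : D.W, ∃ n0 : ℕ, ∀ n, n0 ≤ n → D.ρ (w * h ^ n) φ ∈ D.Ps ∧
      -D.ρ (w * h⁻¹ ^ n) φ ∈ D.Ps := by
    intro w
    obtain ⟨u, hu⟩ := hon φ hφ
    obtain ⟨u', hu'⟩ := hon (-φ) (hneg φ hφ)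
    have hf : Function.Injective (fun n : ℕ => D.ρ (h ^ n) φ) := by
      intro m n hmn
      by_contra hcon
      exact ne_all hne hcon hmn
    have hf' : Function.Injective (fun n : ℕ => -D.ρ (h⁻¹ ^ n) φ) := by
      intro m n hmn
      by_contra hcon
      exact ne_all hne' hcon (neg_injective hmn)
    have hu1 : ∀ n : ℕ, D.On u (D.ρ (h ^ n) φ) := by
      intro n
      rcases Nat.eq_zero_or_pos n with rfl | hn
      · rw [pow_zero, ρ_one]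
        exact hu
      · exact (hT n hn).1 u hu
    have hu1' : ∀ n : ℕ, D.On u' (-D.ρ (h⁻¹ ^ n) φ) := by
      intro n
      rcases Nat.eq_zero_or_pos n with rfl | hn
      · rw [pow_zero, ρ_one]
        exact hu'
      · obtain ⟨-, -, -, -, -, hact⟩ := hN D φ hφ _ (hrt φ hφ (h ^ n))
        have h2 := (hact (h⁻¹ ^ n)).1 (hT n hn).1
        rw [hinv' n] at h2
        obtain ⟨-, -, -, -, hsn, -⟩ := hN D _ (hrt φ hφ (h⁻¹ ^ n)) φ hφ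
        exact hsn.1 h2 u' hu'
    obtain ⟨n1, hn1⟩ := eventually hL hf hu1 w
    obtain ⟨n2, hn2⟩ := eventually hL hf' hu1' w
    refine ⟨max n1 n2, fun n hn => ⟨?_, ?_⟩⟩
    · rw [ρ_mul]
      exact hn1 n (le_trans (le_max_left _ _) hn)
    · rw [ρ_mul, ← map_neg]
      exact hn2 n (le_trans (le_max_right _ _) hn)
  refine ⟨fun m n hmn => ne_all hne hmn, p2, ?_⟩
  intro J hJ s hs
  obtain ⟨-, -, p3, -, -, -⟩ := hP D J
  obtain ⟨n, hn⟩ := p2 1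
  obtain ⟨h1, h2⟩ := hn n le_rfl
  rw [one_mul] at h1 h2
  have e1 := p3 (h ^ n) ((D.par J).pow_mem hJ n) φ s hs
  have e2 := p3 (h⁻¹ ^ n) ((D.par J).pow_mem ((D.par J).inv_mem hJ) n) φ s hs
  have h3 := h1.2 s
  have h4 := h2.2 s
  rw [Pi.sub_apply] at e1 e2
  rw [Pi.neg_apply] at h4
  linarith

end Pool.CS
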