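import Pool.Agent.Work.MP_64ea0f_cs.InterfaceE

set_option autoImplicit false

/-! # Block LOC: the local step for torsion elements -/

namespace Pool.CS

namespace LOC

variable {D : Rd}

theorem mem_cp {g z : D.W} {J : Set D.S} : z ∈ D.cp g J ↔ g⁻¹ * z * g ∈ D.par J := by
  constructor
  · rintro ⟨y, hy, rfl⟩
    have h : g⁻¹ * (g * y * g⁻¹) * g = y := by group
    change g⁻¹ * (g * y * g⁻¹) * g ∈ D.par J
    rw [h]
    exact hy
  · intro h
    refine ⟨_, h, ?_⟩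
    change g * (g⁻¹ * z * g) * g⁻¹ = z
    group

theorem cp_one (J : Set D.S) : D.cp 1 J = D.par J := by
  ext z
  rw [mem_cp, inv_one, one_mul, mul_one]

theorem mem_conj {g z : D.W} {J : Set D.S}
    (h : (D.par J).map (MulAut.conj g).toMonoidHom = D.par J) :
    z ∈ D.par J ↔ g⁻¹ * z * g ∈ D.par J := by
  have h1 : z ∈ D.cp g J ↔ z ∈ D.par J := by
    unfold Rd.cp
    rw [h]
  rw [← h1, mem_cp]

theorem conj_mem {g z : D.W} {J : Set D.S}
    (h : (D.par J).map (MulAut.conj g).toMonoidHom = D.par J) (hz : z ∈ D.par J) :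
    g * z * g⁻¹ ∈ D.par J := by
  rw [mem_conj h]
  have h1 : g⁻¹ * (g * z * g⁻¹) * g = z := by group
  rwa [h1]

theorem conj_of {g : D.W} {J : Set D.S} (h : ∀ z, z ∈ D.par J ↔ g⁻¹ * z * g ∈ D.par J) :
    (D.par J).map (MulAut.conj g).toMonoidHom = D.par J := by
  ext z
  rw [h z]
  exact mem_cp

/-- minimality gives that the centraliser of `z` normalises `par J` -/
theorem norm_of_min (hR : Stmt_RNK) {J : Set D.S} {z : D.W} (hz : z ∈ D.par J)
    (hmin : ∀ g' J', z ∈ D.cp g' J' → D.par J ≤ D.cp g' J') {x : D.W} (hx : x * z = z * x) :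
    (D.par J).map (MulAut.conj x).toMonoidHom = D.par J := by
  have h1 : z ∈ D.cp x J := by
    rw [mem_cp]
    have h2 : x⁻¹ * z * x = z := by
      rw [mul_assoc, ← hx]
      group
    rwa [h2]
  have h3 := hmin x J h1
  rw [← cp_one J] at h3
  have h4 := (hR D 1 x J J h3).2.1 rfl
  rw [cp_one] at h4
  exact h4.symm

theorem pow_mem {J : Set D.S} {x q : D.W}
    (hx : (D.par J).map (MulAut.conj x).toMonoidHom = D.par J) (hq : q ∈ D.par J) (k : ℕ) :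
    (q * x) ^ k * (x ^ k)⁻¹ ∈ D.par J := by
  induction k with
  | zero =>
    rw [pow_zero, pow_zero, inv_one, one_mul]
    exact one_mem _
  | succ k ih =>
    have h1 : ∀ j : ℕ, ∀ z ∈ D.par J, x ^ j * z * (x ^ j)⁻¹ ∈ D.par J := by
      intro j
      induction j with
      | zero =>
        intro z hz
        rw [pow_zero, inv_one, one_mul, mul_one]
        exact hz
      | succ j ihj =>
        intro z hz
        have h2 : x ^ (j + 1) * z * (x ^ (j + 1))⁻¹ = x ^ j * (x * z * x⁻¹) * (x ^ j)⁻¹ := by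
          rw [pow_succ]
          group
        rw [h2]
        exact ihj _ (conj_mem hx hz)
    have h3 : (q * x) ^ (k + 1) * (x ^ (k + 1))⁻¹ =
        ((q * x) ^ k * (x ^ k)⁻¹) * (x ^ k * q * (x ^ k)⁻¹) := by
      rw [pow_succ, pow_succ]
      group
    rw [h3]
    exact (D.par J).mul_mem ih (h1 k q hq)

theorem NJ_pow (hN : Stmt_NRM) {J : Set D.S} {n : D.W} (hn : n ∈ D.NJ J) (k : ℕ) :
    n ^ k ∈ D.NJ J := by
  obtain ⟨-, -, -, h1, -, hmul, -⟩ := hN D J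
  induction k with
  | zero =>
    rw [pow_zero]
    exact h1
  | succ k ih =>
    rw [pow_succ]
    exact hmul _ ih _ hn

/-- the case where `par J` is the parabolic closure of `x ^ p` -/
theorem main (hR : Stmt_RNK) (hN : Stmt_NRM) (hY2 : Stmt_YJ2) (hY6 : Stmt_YJ6) (hAF : D.AF)
    {H : Subgroup D.W} (hD : D.Deep H) {J : Set D.S} (hfin : Finite (D.par J)) {x : D.W} {p : ℕ}
    (hp : p.Prime) (hx : x ^ p ∈ D.par J)
    (hmin : ∀ g' J', x ^ p ∈ D.cp g' J' → D.par J ≤ D.cp g' J')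
    (M : Subgroup D.W) (hMn : M.Normal) (hMf : M.FiniteIndex) :
    ∃ M1 : Subgroup D.W, M1.Normal ∧ M1.FiniteIndex ∧ ∀ y1, y1 ^ p = x ^ p → y1 * x⁻¹ ∈ M1 →
      ∃ m3 ∈ M, m3 * y1 * m3⁻¹ = x := by
  have hHn := hD.nor
  have hHf := hD.fin
  obtain ⟨M1, hM1H, hM1n, hM1f, hM1⟩ := hY6 D hAF H hD J hfin p hp (M ⊓ H) inf_le_right
    inferInstance inferInstance
  refine ⟨M1, hM1n, hM1f, ?_⟩
  intro y1 hy hyx
  obtain ⟨n1, n2, n3, n4, n5, n6, n7⟩ := hN D J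
  have hxn : (D.par J).map (MulAut.conj x).toMonoidHom = D.par J := by
    refine norm_of_min hR hx hmin ?_
    rw [← pow_succ, ← pow_succ']
  have hyn : (D.par J).map (MulAut.conj y1).toMonoidHom = D.par J := by
    refine norm_of_min hR hx hmin ?_
    rw [← hy, ← pow_succ, ← pow_succ']
  have hmn : (D.par J).map (MulAut.conj (y1 * x⁻¹)).toMonoidHom = D.par J := by
    refine conj_of fun z => ?_
    have h1 : (y1 * x⁻¹)⁻¹ * z * (y1 * x⁻¹) = x * (y1⁻¹ * z * y1) * x⁻¹ := by group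
    rw [h1, mem_conj hyn]
    constructor
    · exact conj_mem hxn
    · intro h2
      rw [mem_conj hxn] at h2
      have h3 : x⁻¹ * (x * (y1⁻¹ * z * y1) * x⁻¹) * x = y1⁻¹ * z * y1 := by group
      rwa [h3] at h2
  set m := y1 * x⁻¹ with hm
  have hmH : m ∈ H := hM1H hyx
  obtain ⟨hmNJ, hmc⟩ := hY2 D H hD J hfin m hmH hmn
  obtain ⟨q, hq, hqx⟩ := n1 x hxn
  have hqy : q * y1 = m * (q * x) := by
    have h1 : m * x = y1 := by
      rw [hm]
      group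
    rw [← mul_assoc, hmc q hq, mul_assoc, h1]
  have hmn2 : m * (q * x) ∈ D.NJ J := n6 _ hmNJ _ hqx
  have hn1 : (q * x) ^ p = 1 := by
    refine n2 _ ?_ (NJ_pow hN hqx p)
    have h1 := (D.par J).mul_mem (pow_mem hxn hq p) hx
    rwa [inv_mul_cancel_right] at h1
  have hn2 : (m * (q * x)) ^ p = 1 := by
    refine n2 _ ?_ (NJ_pow hN hmn2 p)
    rw [← hqy]
    have h1 := (D.par J).mul_mem (pow_mem hyn hq p) hx
    rwa [← hy, inv_mul_cancel_right] at h1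
  obtain ⟨m0, hm0, hm0N, hm0e⟩ := hM1 (q * x) hqx m hyx hmNJ hn1 hn2
  obtain ⟨-, hm0c⟩ := hY2 D H hD J hfin m0 hm0.2 (n3 m0 hm0N)
  refine ⟨m0, hm0.1, ?_⟩
  have h1 : m0 * y1 * m0⁻¹ = q⁻¹ * (m0 * (m * (q * x)) * m0⁻¹) := by
    rw [← hqy]
    have h2 : q⁻¹ * (m0 * (q * y1) * m0⁻¹) = q⁻¹ * (m0 * q) * y1 * m0⁻¹ := by group
    rw [h2, hm0c q hq]
    group
  rw [h1, hm0e]
  group

end LOC

open LOC in
theorem loc_thm : Stmt_PCL → Stmt_RNK → Stmt_NRM → Stmt_DEEP → Stmt_YJ2 → Stmt_YJ6 → Stmt_LOC := by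
  intro hP hR hN hDe hY2 hY6 D hAF x hfinx p hp M hMn hMf
  obtain ⟨H, hD⟩ := (hDe D).1 hAF
  obtain ⟨hP1, hP2⟩ := hP D (Subgroup.zpowers (x ^ p))
  obtain ⟨g, J, hgJ, hmin⟩ := hP1
  have hF : Finite (Subgroup.zpowers (x ^ p)) := by
    obtain ⟨k, hk, hk1⟩ := hfinx
    have h1 : IsOfFinOrder (x ^ p) := (isOfFinOrder_iff_pow_eq_one.2 ⟨k, hk, hk1⟩).pow
    exact (finite_zpowers.2 h1).to_subtype
  obtain ⟨g2, J2, hg2, hfin2⟩ := hP2 hF
  have hle := hmin g2 J2 hg2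
  have hfin : Finite (D.par J) := by
    refine Finite.of_injective (β := D.par J2)
      (fun q => ⟨g2⁻¹ * (g * q.1 * g⁻¹) * g2, ?_⟩) ?_
    · rw [← mem_cp]
      apply hle
      rw [mem_cp]
      have h1 : g⁻¹ * (g * q.1 * g⁻¹) * g = q.1 := by group
      rw [h1]
      exact q.2
    · intro a b hab
      have h1 : g2⁻¹ * (g * a.1 * g⁻¹) * g2 = g2⁻¹ * (g * b.1 * g⁻¹) * g2 := congrArg Subtype.val hab
      apply Subtype.ext
      have h2 : ∀ c : D.W, c = g⁻¹ * (g2 * (g2⁻¹ * (g * c * g⁻¹) * g2) * g2⁻¹) * g := by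
        intro c
        group
      rw [h2 a.1, h1, ← h2 b.1]
  have hpow : ∀ z : D.W, (g⁻¹ * z * g) ^ p = g⁻¹ * z ^ p * g := by
    intro z
    have := conj_pow (i := p) (a := g⁻¹) (b := z)
    rwa [inv_inv] at this
  have hx1 : (g⁻¹ * x * g) ^ p ∈ D.par J := by
    rw [hpow, ← mem_cp]
    exact hgJ (Subgroup.mem_zpowers _)
  have hmin1 : ∀ g' J', (g⁻¹ * x * g) ^ p ∈ D.cp g' J' → D.par J ≤ D.cp g' J' := by
    intro g' J' h1
    rw [hpow, mem_cp] at h1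
    have h2 : Subgroup.zpowers (x ^ p) ≤ D.cp (g * g') J' := by
      rw [Subgroup.zpowers_le, mem_cp]
      have h3 : (g * g')⁻¹ * x ^ p * (g * g') = g'⁻¹ * (g⁻¹ * x ^ p * g) * g' := by group
      rwa [h3]
    have h4 := hmin _ _ h2
    intro q hq
    have h5 : g * q * g⁻¹ ∈ D.cp g J := by
      rw [mem_cp]
      have h6 : g⁻¹ * (g * q * g⁻¹) * g = q := by group
      rwa [h6]
    have h7 := h4 h5
    rw [mem_cp] at h7 ⊢
    have h8 : (g * g')⁻¹ * (g * q * g⁻¹) * (g * g') = g'⁻¹ * q * g' := by group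
    rwa [h8] at h7
  obtain ⟨M1, hM1n, hM1f, hM1⟩ := main hR hN hY2 hY6 hAF hD hfin hp hx1 hmin1 M hMn hMf
  refine ⟨M1, hM1n, hM1f, ?_⟩
  intro y1 hy hyx
  obtain ⟨m3, hm3, he⟩ := hM1 (g⁻¹ * y1 * g) (by rw [hpow, hpow, hy]) (by
    have h1 := hM1n.conj_mem _ hyx g⁻¹
    have h2 : g⁻¹ * y1 * g * (g⁻¹ * x * g)⁻¹ = g⁻¹ * (y1 * x⁻¹) * g⁻¹⁻¹ := by group
    rw [h2]
    exact h1)
  refine ⟨g * m3 * g⁻¹, hMn.conj_mem _ hm3 g, ?_⟩
  have h1 : g * m3 * g⁻¹ * y1 * (g * m3 * g⁻¹)⁻¹ = g * (m3 * (g⁻¹ * y1 * g) * m3⁻¹) * g⁻¹ := by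
    group
  rw [h1, he]
  group

end Pool.CS
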