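import Pool.Agent.Work.MP_64ea0f_cs.InterfaceA

set_option autoImplicit false

/-! # Block RNK: inclusion of parabolic subgroups and ranks -/

namespace Pool.CS

theorem RNK_root (hP : Stmt_PAR) (hB : Stmt_BAS) {D : Rd} {g g' : D.W} {J J' : Set D.S}
    (hle : D.cp g J ≤ D.cp g' J') {s : D.S} (hs : s ∈ J) :
    D.In J' (D.ρ (g'⁻¹ * g) (D.e s)) := by
  obtain ⟨-, -, -, -, p5, -⟩ := hP D J'
  obtain ⟨-, -, -, -, -, -, he, hact, -, -, -, hconj, -, hre, -, -⟩ := hB D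
  refine p5 _ (hact _ (he s) _) ?_
  have h1 : g * D.σ s * g⁻¹ ∈ D.cp g J :=
    ⟨D.σ s, Subgroup.subset_closure ⟨s, hs, rfl⟩, rfl⟩
  obtain ⟨y, hy, hyy⟩ := hle h1
  have h2 : g' * y * g'⁻¹ = g * D.σ s * g⁻¹ := hyy
  have h3 : D.rf (D.ρ (g'⁻¹ * g) (D.e s)) = y := by
    rw [hconj (D.e s) (he s), hre s]
    have h4 : y = g'⁻¹ * (g' * y * g'⁻¹) * g' := by group
    rw [h4, h2]
    group
  rw [h3]
  exact hy

theorem RNK_expand (D : Rd) (v : D.V) : v = ∑ s, v s • D.e s := by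
  funext t
  simp [Rd.e, Finset.sum_apply, Pi.single_apply]

theorem RNK_In (hP : Stmt_PAR) (hB : Stmt_BAS) {D : Rd} {g g' : D.W} {J J' : Set D.S}
    (hle : D.cp g J ≤ D.cp g' J') {v : D.V} (hv : D.In J v) :
    D.In J' (D.ρ (g'⁻¹ * g) v) := by
  intro t ht
  rw [RNK_expand D v, map_sum, Finset.sum_apply]
  refine Finset.sum_eq_zero fun s _ => ?_
  rw [map_smul, Pi.smul_apply]
  by_cases hs : s ∈ J
  · rw [RNK_root hP hB hle hs t ht, smul_zero]
  · rw [hv s hs, zero_smul]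

open Classical in
/-- extension by zero -/
noncomputable def RNK_ext (D : Rd) (J : Set D.S) : (J → ℝ) →ₗ[ℝ] D.V where
  toFun x t := if h : t ∈ J then x ⟨t, h⟩ else 0
  map_add' x y := by
    funext t
    by_cases h : t ∈ J
    · simp [h]
    · simp [h]
  map_smul' a x := by
    funext t
    by_cases h : t ∈ J
    · simp [h]
    · simp [h]

theorem RNK_ext_In (D : Rd) (J : Set D.S) (x : J → ℝ) : D.In J (RNK_ext D J x) := by
  intro s hs
  simp [RNK_ext, hs]

theorem RNK_ext_apply (D : Rd) (J : Set D.S) (x : J → ℝ) (s : J) : RNK_ext D J x s = x s := by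
  simp [RNK_ext]

/-- restriction -/
def RNK_res (D : Rd) (J : Set D.S) : D.V →ₗ[ℝ] (J → ℝ) where
  toFun v s := v s
  map_add' _ _ := rfl
  map_smul' _ _ := rfl

theorem RNK_res_inj {D : Rd} {J : Set D.S} {v w : D.V} (hv : D.In J v) (hw : D.In J w)
    (h : RNK_res D J v = RNK_res D J w) : v = w := by
  funext t
  by_cases ht : t ∈ J
  · exact congrFun h ⟨t, ht⟩
  · rw [hv t ht, hw t ht]

/-- the comparison map -/
noncomputable def RNK_map (D : Rd) (h : D.W) (J J' : Set D.S) : (J → ℝ) →ₗ[ℝ] (J' → ℝ) :=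
  RNK_res D J' ∘ₗ D.ρ h ∘ₗ RNK_ext D J

theorem RNK_rho_inv (D : Rd) (h : D.W) (v : D.V) : D.ρ h⁻¹ (D.ρ h v) = v := by
  rw [← Module.End.mul_apply, ← map_mul, inv_mul_cancel, map_one, Module.End.one_apply]

theorem RNK_inj (hP : Stmt_PAR) (hB : Stmt_BAS) {D : Rd} {g g' : D.W} {J J' : Set D.S}
    (hle : D.cp g J ≤ D.cp g' J') : Function.Injective (RNK_map D (g'⁻¹ * g) J J') := by
  intro x y hxy
  have h1 := RNK_res_inj (RNK_In hP hB hle (RNK_ext_In D J x))
    (RNK_In hP hB hle (RNK_ext_In D J y)) hxy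
  have h2 : RNK_ext D J x = RNK_ext D J y := by
    rw [← RNK_rho_inv D (g'⁻¹ * g) (RNK_ext D J x), h1, RNK_rho_inv]
  funext s
  rw [← RNK_ext_apply D J x s, h2, RNK_ext_apply]

theorem RNK_finrank (D : Rd) (J : Set D.S) : Module.finrank ℝ (J → ℝ) = J.ncard := by
  classical
  haveI : Fintype J := Fintype.ofFinite J
  rw [Module.finrank_fintype_fun_eq_card, ← Nat.card_eq_fintype_card, Nat.card_coe_set_eq]

theorem rnk_thm (hP : Stmt_PAR) (hB : Stmt_BAS) : Stmt_RNK := by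
  intro D g g' J J' hle
  refine ⟨?_, ?_, fun v hv => RNK_In hP hB hle hv⟩
  · have h := LinearMap.finrank_le_finrank_of_injective (RNK_inj hP hB hle)
    rwa [RNK_finrank, RNK_finrank] at h
  · intro hcard
    refine le_antisymm hle ?_
    have hsurj : Function.Surjective (RNK_map D (g'⁻¹ * g) J J') :=
      (LinearMap.injective_iff_surjective_of_finrank_eq_finrank
        (by rw [RNK_finrank, RNK_finrank, hcard])).1 (RNK_inj hP hB hle)
    obtain ⟨-, -, -, p4, -, -⟩ := hP D J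
    obtain ⟨-, -, -, -, -, -, he, hact, -, -, -, hconj, -, hre, -, -⟩ := hB D
    unfold Rd.cp
    rw [Subgroup.map_le_iff_le_comap]
    unfold Rd.par
    rw [Subgroup.closure_le]
    rintro _ ⟨s, hs, rfl⟩
    obtain ⟨x, hx⟩ := hsurj (RNK_res D J' (D.e s))
    have hes : D.In J' (D.e s) := by
      intro t ht
      have hts : t ≠ s := by
        rintro rfl
        exact ht hs
      simp [Rd.e, hts]
    have h1 := RNK_res_inj (RNK_In hP hB hle (RNK_ext_In D J x)) hes hx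
    have h2 : D.In J (D.ρ (g'⁻¹ * g)⁻¹ (D.e s)) := by
      rw [← h1, RNK_rho_inv]
      exact RNK_ext_In D J x
    have h3 := p4 _ (hact _ (he s) _) h2
    rw [hconj (D.e s) (he s), hre s] at h3
    change g' * D.σ s * g'⁻¹ ∈ D.cp g J
    refine ⟨_, h3, ?_⟩
    change g * ((g'⁻¹ * g)⁻¹ * D.σ s * (g'⁻¹ * g)⁻¹⁻¹) * g⁻¹ = g' * D.σ s * g'⁻¹
    group

end Pool.CS
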